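import Mathlib

namespace Pool.Agent.Results.MP_e349a0_al.Partition

open scoped Pointwise Cardinal

universe u

/-- `A` is `ℵ₁`-large: countably many left translates cover `G`, and countably many right
translates cover `G` -/
def Large {G : Type u} [Group G] (A : Set G) : Prop :=
  (∃ F : Set G, #F < ℵ₁ ∧ F * A = Set.univ) ∧ ∃ F : Set G, #F < ℵ₁ ∧ A * F = Set.univ

lemma card_closure {G : Type u} [Group G] (s : Set G) : #(Subgroup.closure s) ≤ max ℵ₀ #s := by
  have e : (FreeGroup.lift (Subtype.val : s → G)).range = Subgroup.closure s := by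
    rw [FreeGroup.range_lift_eq_closure, Subtype.range_coe]
  rw [← e]
  refine (Cardinal.mk_le_of_surjective (MonoidHom.rangeRestrict_surjective _)).trans ?_
  rcases isEmpty_or_nonempty s with h | h
  · exact Cardinal.mk_le_aleph0.trans (le_max_left _ _)
  · rw [Cardinal.mk_freeGroup, max_comm]

lemma left {G : Type u} [Group G] : ∃ (I : Set G) (c : G → ℕ → G), Subgroup.closure I = ⊤ ∧
    ∀ a ∈ I, ∀ g, (∃ n, c g n = a) ∨ ∃ n, c (a * g) n = a := by
  obtain ⟨_, _⟩ := exists_wellFoundedLT G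
  let K : G → Subgroup G := fun a => Subgroup.closure {b | b < a}
  let K' : G → Subgroup G := fun a => Subgroup.closure {b | b ≤ a}
  have hm : Monotone K' := fun a b h => Subgroup.closure_mono fun c hc => le_trans hc h
  have hKK : ∀ a b, a < b → K' a ≤ K b := fun a b h =>
    Subgroup.closure_mono fun c hc => lt_of_le_of_lt hc h
  have hK : ∀ a, K a ≤ K' a := fun a => Subgroup.closure_mono fun c hc => le_of_lt hc
  obtain ⟨ρ, h1, h2⟩ : ∃ ρ : G → G, (∀ g, g ∈ K' (ρ g)) ∧ ∀ g a, g ∈ K' a → ρ g ≤ a :=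
    ⟨fun g => wellFounded_lt.min {a | g ∈ K' a} ⟨g, Subgroup.subset_closure le_rfl⟩,
      fun g => wellFounded_lt.min_mem {a | g ∈ K' a} _, fun g a h => wellFounded_lt.min_le (s := {a | g ∈ K' a}) h⟩
  have h3 : ∀ a, ∀ g ∈ K a, g = 1 ∨ ∃ b < a, g ∈ K' b := fun a g hg => by
    induction hg using Subgroup.closure_induction with
    | mem x hx => exact .inr ⟨x, hx, Subgroup.subset_closure le_rfl⟩
    | one => exact .inl rfl
    | mul x y _ _ hx hy =>
      rcases hx with rfl | ⟨b, hb, hx⟩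
      · simpa using hy
      rcases hy with rfl | ⟨b', hb', hy⟩
      · exact .inr ⟨b, hb, by simpa⟩
      exact .inr ⟨max b b', max_lt hb hb', mul_mem (hm (le_max_left _ _) hx) (hm (le_max_right _ _) hy)⟩
    | inv x _ hx => exact hx.imp (by simp) fun ⟨b, hb, h⟩ => ⟨b, hb, inv_mem h⟩
  let r : G → G → G := fun b g => (Quotient.mk (QuotientGroup.rightRel (K b)) g).out
  have hr : ∀ b g, g * (r b g)⁻¹ ∈ K b := fun b g =>
    QuotientGroup.rightRel_apply.1 (Quotient.mk_out (s := QuotientGroup.rightRel (K b)) g)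
  have hr' : ∀ b g, ∀ a ∈ K b, r b (a * g) = r b g := fun b g a ha =>
    congrArg Quotient.out (Quotient.sound (QuotientGroup.rightRel_apply.2 (by simpa using ha)))
  let nx : G → G := fun g => g * (r (ρ g) g)⁻¹
  refine ⟨{a | a ∉ K a}, fun g n => ρ (nx^[n] g), eq_top_iff.2 fun a h => ?_, fun a ha g => ?_⟩
  · clear h
    induction a using WellFoundedLT.induction with
    | ind a ih =>
      by_cases h : a ∈ K a
      · exact (Subgroup.closure_le _).2 ih h
      · exact Subgroup.subset_closure h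
  have base : ∀ g ∈ K a, ρ (a * g) = a := fun g hg =>
    (h2 _ _ (mul_mem (Subgroup.subset_closure le_rfl) (hK a hg))).eq_of_not_lt fun h =>
      ha (by simpa using mul_mem (hKK _ _ h (h1 _)) (inv_mem hg))
  generalize e : ρ g = b
  induction b using WellFoundedLT.induction generalizing g with
  | ind b ih =>
    rcases lt_trichotomy b a with h | rfl | h
    · exact .inr ⟨0, base g (hKK _ _ h (e ▸ h1 g))⟩
    · exact .inl ⟨0, e⟩
    have ha' : a ∈ K b := Subgroup.subset_closure h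
    have e' : ρ (a * g) = b := (h2 _ _ (mul_mem (hK b ha') (e ▸ h1 g))).eq_of_not_lt fun h' => by
      have := h2 g (max a (ρ (a * g))) (by
        simpa using mul_mem (inv_mem (hm (le_max_left a (ρ (a * g)))
          (Subgroup.subset_closure le_rfl))) (hm (le_max_right _ _) (h1 (a * g))))
      exact (max_lt h h').not_ge (e ▸ this)
    have e2 : nx (a * g) = a * nx g := by simp only [nx, e, e', hr' b g a ha', mul_assoc]
    have : (∃ n, ρ (nx^[n] (nx g)) = a) ∨ ∃ n, ρ (nx^[n] (a * nx g)) = a := by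
      rcases h3 b (nx g) (e ▸ hr _ g) with h0 | ⟨b', hb', h0⟩
      · exact .inr ⟨0, base _ (h0 ▸ one_mem _)⟩
      · exact ih _ ((h2 _ _ h0).trans_lt hb') _ rfl
    exact this.imp (fun ⟨n, h⟩ => ⟨n + 1, h⟩) fun ⟨n, h⟩ => ⟨n + 1, by rwa [← e2] at h⟩

lemma choice {R X : Type u} (S : R → Set X) (hS : ∀ r, (S r).Infinite) (D : Setoid R)
    (hD : ∀ r, {r' | D r' r}.Countable) (h : ∀ r r', (S r ∩ S r').Nonempty → D r r') :
    ∃ p : R → X, p.Injective ∧ ∀ r, p r ∈ S r := by
  have : ∀ q : Quotient D, ∃ e : R → ℕ, Set.InjOn e {r | Quotient.mk D r = q} := fun q => by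
    obtain ⟨r, rfl⟩ := q.exists_rep
    simpa [Quotient.eq] using Set.countable_iff_exists_injOn.1 (hD r)
  choose e he using this
  let lt : R → R → Prop := fun r' r => D r' r ∧ e ⟦r⟧ r' < e ⟦r⟧ r
  have wf : WellFounded lt := Subrelation.wf (r := InvImage (· < ·) fun r => e ⟦r⟧ r)
    (fun {a b} h => by
      change e ⟦a⟧ a < _
      rw [Quotient.sound h.1]; exact h.2) (InvImage.wf _ wellFounded_lt)
  have fin : ∀ r, {r' | lt r' r}.Finite := fun r =>
    Set.Finite.of_finite_image ((Set.finite_lt_nat (e ⟦r⟧ r)).subset (by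
      rintro _ ⟨r', h, rfl⟩; exact h.2)) ((he ⟦r⟧).mono fun r' h => Quotient.sound h.1)
  have ex : ∀ r (f : ∀ r', lt r' r → X), ∃ x ∈ S r, ∀ r' h, f r' h ≠ x := fun r f => by
    have := (fin r).to_subtype
    obtain ⟨x, hx, hx'⟩ := (hS r).exists_notMem_finite
      (Set.finite_range fun y : {r' | lt r' r} => f y.1 y.2)
    exact ⟨x, hx, fun r' h e => hx' ⟨⟨r', h⟩, e⟩⟩
  choose F hF hF' using ex
  have hp : ∀ r, wf.fix F r = F r fun r' _ => wf.fix F r' := wf.fix_eq F
  have hm : ∀ r, wf.fix F r ∈ S r := fun r => hp r ▸ hF _ _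
  refine ⟨wf.fix F, fun a b hab => ?_, hm⟩
  have d := h a b ⟨_, hm a, hab ▸ hm b⟩
  rcases lt_trichotomy (e ⟦b⟧ a) (e ⟦b⟧ b) with h | h | h
  · exact absurd (hab.trans (hp b)) (hF' b (fun r' _ => wf.fix F r') a ⟨d, h⟩)
  · exact he ⟦b⟧ (Quotient.sound d) rfl h
  · rw [← Quotient.sound d] at h
    exact absurd (hab.symm.trans (hp a)) (hF' a (fun r' _ => wf.fix F r') b ⟨D.symm d, h⟩)

theorem result (G : Type u) [Group G] [Infinite G] :
    ∃ (ι : Type u) (A : ι → Set G), #ι = #G ∧ Pairwise (fun i j => Disjoint (A i) (A j)) ∧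
      ⋃ i, A i = Set.univ ∧ ∀ i, (A i).Nonempty ∧ Large (A i) := by
  suffices ∃ χ : G → G, ∀ a, ∃ F : Set G, F.Countable ∧
      ∀ g, (∃ f ∈ F, χ (f * g) = a) ∧ ∃ f ∈ F, χ (g * f) = a by
    obtain ⟨χ, h⟩ := this
    refine ⟨G, fun a => χ ⁻¹' {a}, rfl, fun i j hij => Set.disjoint_left.2 fun x a b =>
      hij (a.symm.trans b), Set.eq_univ_of_forall fun x => Set.mem_iUnion.2 ⟨_, rfl⟩, fun a => ?_⟩
    obtain ⟨F, hF, h⟩ := h a
    have hF' : #(F⁻¹ : Set G) < ℵ₁ := (Cardinal.le_aleph0_iff_set_countable.2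
      (hF.preimage inv_injective)).trans_lt Cardinal.aleph0_lt_aleph_one
    refine ⟨let ⟨f, _, h⟩ := (h 1).1; ⟨_, h⟩, ⟨F⁻¹, hF', Set.eq_univ_of_forall fun g => ?_⟩,
      F⁻¹, hF', Set.eq_univ_of_forall fun g => ?_⟩
    · obtain ⟨f, hf, e⟩ := (h g).1
      exact ⟨f⁻¹, by simpa, f * g, e, by simp⟩
    · obtain ⟨f, hf, e⟩ := (h g).2
      exact ⟨g * f, e, f⁻¹, by simpa, by simp⟩
  by_cases hc : Countable G
  · exact ⟨id, fun a => ⟨Set.univ, Set.countable_univ, fun g =>
      ⟨⟨a * g⁻¹, trivial, by simp⟩, g⁻¹ * a, trivial, by simp⟩⟩⟩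
  have : Uncountable G := ⟨hc⟩
  obtain ⟨I, c, hI, hc'⟩ := left (G := G)
  obtain ⟨j⟩ : Nonempty (G ↪ I) := by
    have := card_closure I
    rw [hI, Cardinal.mk_congr Subgroup.topEquiv.toEquiv, le_max_iff] at this
    exact this.resolve_left Cardinal.aleph0_lt_mk.not_ge
  let H := Subgroup.closure (Set.range (Infinite.natEmbedding G))
  have hH : (H : Set G).Countable := by
    rw [← Cardinal.le_aleph0_iff_set_countable]
    exact (card_closure _).trans (max_le le_rfl
      (Cardinal.le_aleph0_iff_set_countable.2 (Set.countable_range _)))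
  have hH' : (H : Set G).Infinite :=
    (Set.infinite_range_of_injective (Infinite.natEmbedding G).injective).mono
      Subgroup.subset_closure
  obtain ⟨p, hp, hp'⟩ := choice (R := G × Bool × ℕ)
    (fun r => if r.2.1 then (· * r.1) '' H else (r.1 * ·) '' H)
    (fun r => by
      split_ifs
      · exact hH'.image (mul_left_injective _).injOn
      · exact hH'.image (mul_right_injective _).injOn)
    ((DoubleCoset.setoid (H : Set G) H).comap Prod.fst)
    (fun r => by
      refine (((hH.image2 hH fun a b => a * r.1 * b)).prod Set.countable_univ).mono fun r' h => ?_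
      obtain ⟨a, ha, b, hb, e⟩ := DoubleCoset.rel_iff.1 (Setoid.symm' _ h)
      exact ⟨⟨a, ha, b, hb, e.symm⟩, trivial⟩)
    (fun r r' ⟨x, a, b⟩ => by
      have : ∀ r : G × Bool × ℕ, x ∈ (if r.2.1 then (· * r.1) '' H else (r.1 * ·) '' H : Set G) →
          DoubleCoset.setoid (H : Set G) H r.1 x := fun r h => by
        split_ifs at h <;> obtain ⟨y, hy, rfl⟩ := h
        · exact DoubleCoset.rel_iff.2 ⟨y, hy, 1, one_mem _, by simp⟩
        · exact DoubleCoset.rel_iff.2 ⟨1, one_mem _, y, hy, by simp⟩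
      exact (DoubleCoset.setoid (H : Set G) H).trans' (this r a)
        ((DoubleCoset.setoid (H : Set G) H).symm' (this r' b)))
  let col : G × Bool × ℕ → G := fun r =>
    Function.invFun (fun a => (j a).1) (c (if r.2.1 then r.1 else r.1⁻¹) r.2.2)
  have hj : ∀ a, Function.invFun (fun a => (j a).1) (j a).1 = a :=
    Function.leftInverse_invFun (Subtype.val_injective.comp j.injective)
  have hχ : ∀ r, col (Function.invFun p (p r)) = col r := fun r =>
    congrArg col (Function.leftInverse_invFun hp r)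
  refine ⟨fun x => col (Function.invFun p x), fun a => ⟨H ∪ ((· * (j a).1) '' H ∪
    (((j a).1⁻¹ * ·) '' H)), hH.union ((hH.image _).union (hH.image _)), fun g => ⟨?_, ?_⟩⟩⟩
  · rcases hc' _ (j a).2 g with ⟨n, h⟩ | ⟨n, h⟩
    · obtain ⟨y, hy, e⟩ := hp' (g, true, n)
      exact ⟨y, .inl hy, by simp only at e ⊢; rw [e, hχ]; simp [col, h, hj]⟩
    · obtain ⟨y, hy, e⟩ := hp' ((j a).1 * g, true, n)
      exact ⟨_, .inr (.inl ⟨y, hy, rfl⟩), by simp only [mul_assoc] at e ⊢; rw [e, hχ]; simp [col, h, hj]⟩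
  · rcases hc' _ (j a).2 g⁻¹ with ⟨n, h⟩ | ⟨n, h⟩
    · obtain ⟨y, hy, e⟩ := hp' (g, false, n)
      exact ⟨y, .inl hy, by simp only at e ⊢; rw [e, hχ]; simp [col, h, hj]⟩
    · obtain ⟨y, hy, e⟩ := hp' (g * (j a).1⁻¹, false, n)
      exact ⟨_, .inr (.inr ⟨y, hy, rfl⟩), by
        simp only [← mul_assoc] at e ⊢; rw [e, hχ]; simp [col, h, hj]⟩

end Pool.Agent.Results.MP_e349a0_al.Partition
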